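import Pool.Agent.Helper68.QS.St1

/-!
# Project QD (MP_d112a4_gt), part QS, module CPA: composition with the symmetric solution
-/

set_option autoImplicit false

open MeasureTheory Set Filter Topology Complex
open scoped ContDiff ComplexConjugate ENNReal

namespace Pool.Agent.Helper64.QS

open Pool.Agent.Helper68.QS Pool.Agent.Helper68.QC
open Pool.Agent.Helper61.QE (D Dx rf SU Fu FD Ab sy nuT muT syX syY Kap En Et)

private lemma nsq_sub (x y : ℂ) :
    ‖1 - conj y * x‖ ^ 2 - ‖x - y‖ ^ 2 = (1 - ‖x‖ ^ 2) * (1 - ‖y‖ ^ 2) := by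
  simp only [← Complex.normSq_eq_norm_sq, Complex.normSq_apply, Complex.sub_re, Complex.sub_im,
    Complex.mul_re, Complex.mul_im, Complex.conj_re, Complex.conj_im, Complex.one_re,
    Complex.one_im]
  ring

private lemma nsq_add (x y : ℂ) :
    ‖1 + conj y * x‖ ^ 2 - ‖x + y‖ ^ 2 = (1 - ‖x‖ ^ 2) * (1 - ‖y‖ ^ 2) := by
  simp only [← Complex.normSq_eq_norm_sq, Complex.normSq_apply, Complex.add_re, Complex.add_im,
    Complex.mul_re, Complex.mul_im, Complex.conj_re, Complex.conj_im, Complex.one_re,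
    Complex.one_im]
  ring

private lemma ineq {k : ℝ} (hk0 : 0 ≤ k) (hk1 : k < 1) {x y : ℂ} (hx : ‖x‖ ≤ k) (hy : ‖y‖ ≤ k) :
    ‖x - y‖ ≤ 2 * k / (1 + k ^ 2) * ‖1 - conj y * x‖ := by
  have hs : 0 < 1 + k ^ 2 := by positivity
  have hx2 : ‖x‖ ^ 2 ≤ k ^ 2 := pow_le_pow_left₀ (norm_nonneg _) hx 2
  have hy2 : ‖y‖ ^ 2 ≤ k ^ 2 := pow_le_pow_left₀ (norm_nonneg _) hy 2
  have hk2 : k ^ 2 ≤ 1 := by nlinarith
  have h1 := nsq_sub x y
  have h2 : (1 - k ^ 2) ^ 2 ≤ (1 - ‖x‖ ^ 2) * (1 - ‖y‖ ^ 2) := by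
    nlinarith [mul_nonneg (sub_nonneg.2 hx2) (sub_nonneg.2 hy2),
      mul_nonneg (sub_nonneg.2 hx2) (sub_nonneg.2 hk2), mul_nonneg (sub_nonneg.2 hy2) (sub_nonneg.2 hk2)]
  have h3 : ‖1 - conj y * x‖ ≤ 1 + k ^ 2 := by
    have e1 := norm_sub_le (1 : ℂ) (conj y * x)
    rw [norm_one, norm_mul, RCLike.norm_conj] at e1
    have e2 : ‖y‖ * ‖x‖ ≤ k * k := mul_le_mul hy hx (norm_nonneg _) hk0
    nlinarith
  have h4 : ‖1 - conj y * x‖ ^ 2 ≤ (1 + k ^ 2) ^ 2 := pow_le_pow_left₀ (norm_nonneg _) h3 2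
  obtain ⟨A, hA⟩ : ∃ A, A = ‖x - y‖ ^ 2 := ⟨_, rfl⟩
  obtain ⟨B, hB⟩ : ∃ B, B = ‖1 - conj y * x‖ ^ 2 := ⟨_, rfl⟩
  rw [← hA, ← hB] at h1
  rw [← hB] at h4
  have h5 : A * (1 + k ^ 2) ^ 2 ≤ 4 * k ^ 2 * B := by
    have e1 : A ≤ B - (1 - k ^ 2) ^ 2 := by linarith
    have e2 : A * (1 + k ^ 2) ^ 2 ≤ (B - (1 - k ^ 2) ^ 2) * (1 + k ^ 2) ^ 2 :=
      mul_le_mul_of_nonneg_right e1 (by positivity)
    have e3 : (1 - k ^ 2) ^ 2 * B ≤ (1 - k ^ 2) ^ 2 * (1 + k ^ 2) ^ 2 :=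
      mul_le_mul_of_nonneg_left h4 (by positivity)
    nlinarith
  have h6 : A ≤ (2 * k / (1 + k ^ 2) * ‖1 - conj y * x‖) ^ 2 := by
    rw [mul_pow, div_pow, ← hB, div_mul_eq_mul_div, le_div_iff₀ (by positivity)]
    nlinarith
  rw [hA] at h6
  exact (pow_le_pow_iff_left₀ (norm_nonneg _) (by positivity) two_ne_zero).1 h6

private lemma norm_mbp_lt {t ζ : ℂ} (ht : ‖t‖ < 1) (hζ : ‖ζ‖ < 1) : ‖mbp t ζ‖ < 1 := by
  unfold mbp
  have h1 := nsq_add ζ t
  have h2 : 0 < (1 - ‖ζ‖ ^ 2) * (1 - ‖t‖ ^ 2) := by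
    apply mul_pos
    · nlinarith [norm_nonneg ζ]
    · nlinarith [norm_nonneg t]
  have h3 : ‖ζ + t‖ ^ 2 < ‖1 + conj t * ζ‖ ^ 2 := by linarith
  have h4 : ‖ζ + t‖ < ‖1 + conj t * ζ‖ :=
    (pow_lt_pow_iff_left₀ (norm_nonneg _) (norm_nonneg _) two_ne_zero).1 h3
  rw [norm_div, div_lt_one (lt_of_le_of_lt (norm_nonneg _) h4)]
  exact h4

private lemma rf_eq (z : ℂ) : rf z = conj (z⁻¹) := by
  unfold rf
  rw [one_div, map_inv₀]

private lemma den_ne {t ζ : ℂ} (ht : ‖t‖ < 1) (hζ : ‖ζ‖ < 1) : 1 + conj t * ζ ≠ 0 := by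
  intro h
  have h1 : conj t * ζ = -1 := by linear_combination h
  have h2 : ‖conj t * ζ‖ = 1 := by rw [h1, norm_neg, norm_one]
  rw [norm_mul, RCLike.norm_conj] at h2
  have h3 : ‖t‖ * ‖ζ‖ < 1 := by
    nlinarith [norm_nonneg t, norm_nonneg ζ]
  linarith

private lemma rf_mem {z : ℂ} (hz : z ∈ Dx) : rf z ∈ D := by
  have hz' : 1 < ‖z‖ := hz
  rw [mem_ball_zero_iff, rf_eq, RCLike.norm_conj, norm_inv]
  exact inv_lt_one_of_one_lt₀ hz'

private lemma rf_rf (z : ℂ) : rf (rf z) = z := by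
  rw [rf_eq, rf_eq, map_inv₀, Complex.conj_conj, inv_inv]

private lemma isOpen_Dx : IsOpen Dx := isOpen_lt continuous_const continuous_norm

/-- the reflected function and its derivative -/
private noncomputable def Q (g : ℂ → ℂ) (z : ℂ) : ℂ := conj (g (rf z))

private noncomputable def Q' (g : ℂ → ℂ) (z : ℂ) : ℂ := -(conj (deriv g (rf z)) * (z ^ 2)⁻¹)

private lemma hasQ {g : ℂ → ℂ} (hg : DifferentiableOn ℂ g D) {z : ℂ} (hz : z ∈ Dx) :
    HasDerivAt (Q g) (Q' g z) z := by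
  have hz' : 1 < ‖z‖ := hz
  have hz0 : z ≠ 0 := by
    rintro rfl
    rw [norm_zero] at hz'
    linarith
  have h1 : HasDerivAt g (deriv g (rf z)) (rf z) :=
    (hg.differentiableAt (Metric.isOpen_ball.mem_nhds (rf_mem hz))).hasDerivAt
  have h2 := h1.conj_conj
  have h3 : conj (rf z) = z⁻¹ := by rw [rf_eq, Complex.conj_conj]
  rw [h3] at h2
  have h4 := h2.comp z (hasDerivAt_inv hz0)
  have h5 : ((conj ∘ g ∘ conj) ∘ fun y : ℂ => y⁻¹) = Q g := by
    funext y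
    simp only [Function.comp_apply, Q, rf_eq]
  have h6 : conj (deriv g (rf z)) * -(z ^ 2)⁻¹ = Q' g z := by
    unfold Q'
    ring
  rw [h6] at h4
  have h7 : HasDerivAt ((conj ∘ g ∘ conj) ∘ fun y : ℂ => y⁻¹) (Q' g z) z := h4
  rw [h5] at h7
  exact h7

private lemma nuQ (g : ℂ → ℂ) {z : ℂ} (hz : z ∈ Dx) : nuT g z * Q' g z = conj (Q' g z) := by
  have hz' : 1 < ‖z‖ := hz
  have hz0 : z ≠ 0 := by
    rintro rfl
    rw [norm_zero] at hz'
    linarith
  have hc0 : conj z ≠ 0 := (map_ne_zero _).2 hz0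
  unfold nuT Q'
  rw [if_pos hz']
  by_cases h0 : deriv g (rf z) = 0
  · rw [h0]
    simp
  · have h1 : conj (deriv g (rf z)) ≠ 0 := (map_ne_zero _).2 h0
    rw [map_neg, map_mul, map_inv₀, map_pow, Complex.conj_conj]
    field_simp

private lemma diffQ {g : ℂ → ℂ} (hg : DifferentiableOn ℂ g D) : DifferentiableOn ℂ (Q g) Dx :=
  fun _ hz => (hasQ hg hz).differentiableAt.differentiableWithinAt

/-- `q + c conj q` is smooth on `Dx`, with its derivatives -/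
private lemma comb {g : ℂ → ℂ} (hg : DifferentiableOn ℂ g D) (c : ℂ) :
    ContDiffOn ℝ 1 (fun z => Q g z + c * conj (Q g z)) Dx ∧
    ∀ z ∈ Dx, dz (fun z => Q g z + c * conj (Q g z)) z = Q' g z ∧
      dzb (fun z => Q g z + c * conj (Q g z)) z = c * conj (Q' g z) := by
  have h0 : ContDiffOn ℝ 1 (Q g) Dx := by
    have : ContDiffOn ℂ 1 (Q g) Dx := (diffQ hg).contDiffOn isOpen_Dx
    exact this.restrict_scalars ℝ
  refine ⟨?_, ?_⟩
  · refine h0.add (contDiffOn_const.mul ?_)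
    exact (Complex.conjCLE.contDiff (n := 1)).comp_contDiffOn h0
  · intro z hz
    have h1 := hasQ hg hz
    have h2 : DifferentiableAt ℝ (Q g) z := h1.differentiableAt.restrictScalars ℝ
    have h3 : DifferentiableAt ℝ (fun z => conj (Q g z)) z :=
      Complex.conjCLE.differentiableAt.comp z h2
    have h4 : DifferentiableAt ℝ (fun z => c * conj (Q g z)) z := h3.const_mul c
    have e1 : dz (Q g) z = Q' g z := by rw [dz_holo h1.differentiableAt, h1.deriv]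
    have e2 : dzb (Q g) z = 0 := dzb_holo h1.differentiableAt
    constructor
    · rw [dz_add h2 h4, dz_const_mul c h3, dz_conj h2, e1, e2, map_zero, mul_zero, add_zero]
    · rw [dzb_add h2 h4, dzb_const_mul c h3, dzb_conj h2, e1, e2, zero_add]

/-- zeros of the derivative, seen from outside -/
private lemma ae_ne {g : ℂ → ℂ} (hg : DifferentiableOn ℂ g D) (hne : ∃ x ∈ D, deriv g x ≠ 0) :
    ∀ᵐ z ∂(volume.restrict Dx), Q' g z ≠ 0 := by
  have h1 : AnalyticOnNhd ℂ (deriv g) D := (hg.analyticOnNhd Metric.isOpen_ball).deriv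
  have h2 : IsPreconnected D := (convex_ball (0 : ℂ) 1).isPreconnected
  have h3 : ∀ᶠ x in codiscreteWithin D, deriv g x ≠ 0 := by
    rcases h1.eqOn_zero_or_eventually_ne_zero_of_preconnected h2 with h | h
    · obtain ⟨x, hx, hx0⟩ := hne
      exact absurd (h hx) hx0
    · exact h
  have h4 : ∀ᵐ x ∂(volume.restrict D), deriv g x ≠ 0 :=
    ae_restrict_le_codiscreteWithin Metric.isOpen_ball.measurableSet h3
  have h5 : volume {x : ℂ | x ≠ 0 ∧ x ∈ D ∧ deriv g x = 0} = 0 := by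
    rw [ae_restrict_iff' Metric.isOpen_ball.measurableSet] at h4
    refine measure_mono_null ?_ (ae_iff.1 h4)
    rintro x ⟨-, hx1, hx2⟩ hx
    exact hx hx1 hx2
  have h6 : DifferentiableOn ℝ rf {x : ℂ | x ≠ 0 ∧ x ∈ D ∧ deriv g x = 0} := by
    intro x hx
    have e1 : DifferentiableAt ℝ (fun x : ℂ => x⁻¹) x :=
      (differentiableAt_inv hx.1 : DifferentiableAt ℂ (fun x : ℂ => x⁻¹) x).restrictScalars ℝ
    have e2 : DifferentiableAt ℝ (fun x : ℂ => conj (x⁻¹)) x :=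
      Complex.conjCLE.differentiableAt.comp x e1
    have e3 : rf = fun x : ℂ => conj (x⁻¹) := by
      funext y
      exact rf_eq y
    rw [e3]
    exact e2.differentiableWithinAt
  have h7 := addHaar_image_eq_zero_of_differentiableOn_of_addHaar_eq_zero volume h6 h5
  rw [ae_restrict_iff' isOpen_Dx.measurableSet, ae_iff]
  refine measure_mono_null ?_ h7
  intro z hz
  have hz1 : ¬ (z ∈ Dx → Q' g z ≠ 0) := hz
  push Not at hz1
  obtain ⟨hzD, hz0⟩ := hz1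
  have hz' : 1 < ‖z‖ := hzD
  have hzne : z ≠ 0 := by
    rintro rfl
    rw [norm_zero] at hz'
    linarith
  refine ⟨rf z, ⟨?_, rf_mem hzD, ?_⟩, rf_rf z⟩
  · rw [rf_eq]
    exact (map_ne_zero _).2 (inv_ne_zero hzne)
  · unfold Q' at hz0
    rw [neg_eq_zero, mul_eq_zero] at hz0
    rcases hz0 with h | h
    · exact (map_eq_zero _).1 h
    · exact absurd h (inv_ne_zero (pow_ne_zero 2 hzne))

theorem pCPA (hEX : Pool.Agent.Helper68.QC.StEX) (hFAC : Pool.Agent.Helper68.QC.StFAC)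
    (hCMP : Pool.Agent.Helper68.QC.StCMP) (hCVM : Pool.Agent.Helper68.QC.StCVM)
    (hCHR : Pool.Agent.Helper68.QC.StCHR) (hUNW : Pool.Agent.Helper68.QC.StUNW)
    (hSUB : Pool.Agent.Helper61.QE.StSUB) (hEDD : Pool.Agent.Helper61.QE.StEDD)
    (hCOE : Pool.Agent.Helper61.QE.StCOE) : Pool.Agent.Helper68.QS.StCPA := by
  intro h H H' κ a b v M k hh hne hA hSM hV hk1 hκ hκ0 ζ hζ
  obtain ⟨-, hS2, -, hS4, hS5, -, hS7, -, -, hS10⟩ := hSUB
  have hζ1 : ‖ζ‖ < 1 := mem_ball_zero_iff.1 hζ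
  have ha0 : a ≠ 0 := by
    rintro rfl
    have := hA.lt
    rw [norm_zero] at this
    exact absurd this (not_lt.2 (norm_nonneg _))
  obtain ⟨t, ht⟩ : ∃ t, t = conj (b / a) := ⟨_, rfl⟩
  have hct : conj t = b / a := by rw [ht, Complex.conj_conj]
  have ht1 : ‖t‖ < 1 := by
    rw [ht, RCLike.norm_conj, norm_div, div_lt_one (norm_pos_iff.2 ha0)]
    exact hA.lt
  rw [← ht] at hV ⊢
  obtain ⟨w, hw⟩ : ∃ w, w = mbp t ζ := ⟨_, rfl⟩
  have hw1 : ‖w‖ < 1 := by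
    rw [hw]
    exact norm_mbp_lt ht1 hζ1
  rw [← hw]
  have hk0 : 0 ≤ k := (norm_nonneg _).trans (hκ.le 0)
  -- the coefficients
  have hden1 : ∀ z : ℂ, den (1 : SL) z = 1 := by
    intro z
    simp [den]
  have hmob1 : ∀ z : ℂ, mob (1 : SL) z = z := by
    intro z
    rw [mob, hden1]
    simp
  have hSU1 : SU (1 : SL) := by
    constructor
    · simp
    · simp
  have hKap : Kap (1 : Unit →* SL) k κ := by
    refine ⟨hκ, hκ0, ?_⟩
    intro γ
    refine ae_of_all _ fun z => ?_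
    rw [MonoidHom.one_apply, hmob1, hden1]
    simp
  obtain ⟨hC1, hC2, -⟩ := hCOE Unit (1 : Unit →* SL) h κ k (fun γ => hSU1)
    ⟨hh, fun γ => ⟨0, fun z _ => by rw [MonoidHom.one_apply, hmob1, add_zero]⟩⟩ hk0 hKap
  have hBμ := (hC1 w).1
  obtain ⟨hBσ, -, hσs, -, -⟩ := hC2 t
  obtain ⟨k', hk'⟩ : ∃ k', k' = max k (max ‖t‖ ‖w‖) := ⟨_, rfl⟩
  have hk'1 : k' < 1 := by
    rw [hk']
    exact max_lt hk1 (max_lt ht1 hw1)
  have hk'0 : 0 ≤ k' := by
    rw [hk']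
    exact hk0.trans (le_max_left _ _)
  have hBμ' : Bel k' (muT κ h w) := ⟨hBμ.meas, fun z => (hBμ.le z).trans (by
    rw [hk']
    exact max_le (le_max_left _ _) ((le_max_right _ _).trans (le_max_right _ _)))⟩
  have hBσ' : Bel k' (syX h t) := ⟨hBσ.meas, fun z => (hBσ.le z).trans (by
    rw [hk']
    exact (le_max_left _ _).trans (le_max_right _ _))⟩
  have hδ1 : 2 * k' / (1 + k' ^ 2) < 1 := by
    rw [div_lt_one (by positivity)]
    nlinarith [mul_pos (sub_pos.2 hk'1) (sub_pos.2 hk'1)]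
  obtain ⟨ν, hBν, hcomp, -⟩ := hCMP k' hk'1 _ _ hBμ' hBσ' _ hδ1
    (fun z => ineq hk'0 hk'1 (hBμ'.le z) (hBσ'.le z))
  refine ⟨2 * k' / (1 + k' ^ 2), hδ1, ν, hBν, hcomp, ?_⟩
  obtain ⟨-, hVx, hVrf, -, -, -, -⟩ := hEDD k' hk'1 _ hBσ' hσs
  -- the function `hm`
  have hmobD : ∀ A : SL, SU A → ∀ z ∈ D, mob A z ∈ D := by
    intro A hAS z hz
    have hz1 : ‖z‖ < 1 := mem_ball_zero_iff.1 hz
    have e1 := hS4 A hAS z hz1.le
    have e2 := hS5 A hAS z e1
    rw [mem_ball_zero_iff]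
    by_contra hno
    rw [not_lt] at hno
    have e3 : 0 < 1 - ‖z‖ ^ 2 := by nlinarith [norm_nonneg z]
    have e4 : (1 - ‖mob A z‖ ^ 2) * ‖den A z‖ ^ 2 ≤ 0 := by
      apply mul_nonpos_of_nonpos_of_nonneg
      · nlinarith
      · positivity
    linarith
  have hMi : SU M⁻¹ := (hS7 M M hSM hSM).2.1
  have hmd : DifferentiableOn ℂ (hM M h) D := by
    intro z hz
    have hz1 : ‖z‖ < 1 := mem_ball_zero_iff.1 hz
    have e1 := hS2 M⁻¹ z (hS4 M⁻¹ hMi z hz1.le)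
    have e2 : DifferentiableAt ℂ h (mob M⁻¹ z) :=
      hh.differentiableAt (Metric.isOpen_ball.mem_nhds (hmobD _ hMi z hz))
    exact (e2.comp z e1.differentiableAt).differentiableWithinAt
  have hmne : ∃ x ∈ D, deriv (hM M h) x ≠ 0 := by
    obtain ⟨x, hx, hx0⟩ := hne
    have hx1 : ‖x‖ < 1 := mem_ball_zero_iff.1 hx
    have hy := hmobD M hSM x hx
    have hinv := (hS10 M x (hS4 M hSM x hx1.le)).1
    refine ⟨mob M x, hy, ?_⟩
    have hy1 : ‖mob M x‖ < 1 := mem_ball_zero_iff.1 hy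
    have hd := hS4 M⁻¹ hMi _ hy1.le
    have e1 := hS2 M⁻¹ (mob M x) hd
    have e2 : HasDerivAt h (deriv h x) (mob M⁻¹ (mob M x)) := by
      rw [hinv]
      exact (hh.differentiableAt (Metric.isOpen_ball.mem_nhds hx)).hasDerivAt
    have e3 := e2.comp (mob M x) e1
    have e4 : HasDerivAt (hM M h) (deriv h x * (den M⁻¹ (mob M x) ^ 2)⁻¹) (mob M x) := e3
    rw [e4.deriv]
    exact mul_ne_zero hx0 (inv_ne_zero (pow_ne_zero 2 hd))
  -- the solution for `μ`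
  obtain ⟨hfc, hfd⟩ := comb hh w
  have hsol : Sol (muT κ h w) Dx (fun z => Q h z + w * conj (Q h z)) := by
    refine ⟨_, _, wd_smoothOn isOpen_Dx hfc, ?_⟩
    filter_upwards [ae_restrict_mem isOpen_Dx.measurableSet] with z hz
    have hz' : 1 < ‖z‖ := hz
    rw [(hfd z hz).1, (hfd z hz).2]
    unfold Pool.Agent.Helper61.QE.muT
    rw [hκ0 z hz'.le, zero_add, mul_assoc, nuQ h hz]
  have hF1 := hFAC k' hk'1 _ hBμ' Dx _ isOpen_Dx hsol
  have himg : nq (muT κ h w) '' Dx = nq ν '' Dx := by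
    have e1 : (nq (muT κ h w) : ℂ → ℂ) = (nq ν : ℂ → ℂ) ∘ (nq (syX h t)) := funext hcomp
    rw [e1, Set.image_comp, hVx]
  have hL : ∀ z ∈ Dx, Q (hM M h) (nq (syX h t) z) +
      ζ * (conj a / a) * conj (Q (hM M h) (nq (syX h t) z)) =
      conj a * (1 + ζ * conj t) * (Q h z + w * conj (Q h z)) +
        (conj v + ζ * (conj a / a) * v) := by
    intro z hz
    have hrz := rf_mem hz
    have e1 : Q (hM M h) (nq (syX h t) z) = conj (h (H (rf z))) := by
      unfold Q hM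
      rw [← hVrf, hV _ hrz,
        (hS10 M _ (hS4 M hSM _ (le_of_lt (mem_ball_zero_iff.1 (hA.m hrz))))).1]
    have e2 := hA.eq (rf z) hrz
    have e3 : conj (Q h z) = h (rf z) := by
      unfold Q
      rw [Complex.conj_conj]
    have e4 : Q h z = conj (h (rf z)) := rfl
    rw [e1, e2, e3, e4]
    simp only [map_add, map_mul, Complex.conj_conj]
    have h5 : w * (1 + conj t * ζ) = ζ + t := by
      rw [hw]
      unfold mbp
      rw [div_mul_cancel₀ _ (den_ne ht1 hζ1)]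
    have hca0 : conj a ≠ 0 := (map_ne_zero _).2 ha0
    have h6 : conj a * t = conj b := by
      rw [ht, map_div₀]
      field_simp
    have h8 : conj a / a * a = conj a := div_mul_cancel₀ _ ha0
    have h9 : conj a / a * b = conj a * conj t := by
      rw [hct]
      field_simp
    linear_combination (-h (rf z)) * h6 + (ζ * h (rf z)) * h8 + ζ * conj (h (rf z)) * h9 -
      conj a * h (rf z) * h5
  -- the holomorphic function
  obtain ⟨G, hG⟩ : ∃ G : ℂ → ℂ, G = fun ξ => Q (hM M h) ((nq ν).symm ξ) +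
      ζ * (conj a / a) * conj (Q (hM M h) ((nq ν).symm ξ)) := ⟨_, rfl⟩
  have hWo : IsOpen (nq ν '' Dx) := (nq ν).isOpenMap _ isOpen_Dx
  have hGd : DifferentiableOn ℂ G (nq ν '' Dx) := by
    have e1 : DifferentiableOn ℂ (fun ξ => conj a * (1 + ζ * conj t) *
        ((fun z => Q h z + w * conj (Q h z)) ((nq (muT κ h w)).symm ξ)) +
          (conj v + ζ * (conj a / a) * v)) (nq ν '' Dx) := by
      rw [← himg]
      exact (hF1.const_mul _).add_const _
    refine e1.congr ?_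
    rintro _ ⟨y, hy, rfl⟩
    rw [← hVx] at hy
    obtain ⟨z, hz, rfl⟩ := hy
    rw [hG]
    simp only
    rw [Homeomorph.symm_apply_apply, ← hcomp z, Homeomorph.symm_apply_apply]
    exact hL z hz
  obtain ⟨a', b', hWD, hb', -, ha', -⟩ := hCVM _ hδ1 ν hBν
  have hG8 : ContDiffOn ℝ ∞ G (nq ν '' Dx) := by
    have : ContDiffOn ℂ ∞ G (nq ν '' Dx) := hGd.contDiffOn hWo
    exact this.restrict_scalars ℝ
  have hW1 := hCHR Dx (nq ν '' Dx) (nq ν) a' b' G isOpen_Dx hWo (hWD.mono (subset_univ _))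
    (mapsTo_image _ _) hG8
  obtain ⟨hLc, hLd⟩ := comb hmd (ζ * (conj a / a))
  have hW2 := wd_smoothOn isOpen_Dx hLc
  obtain ⟨u1, u2⟩ := hUNW Dx _ _ _ _ _ _ isOpen_Dx (fun z _ => by
    rw [hG]
    simp only
    rw [Homeomorph.symm_apply_apply]) hW1 hW2
  filter_upwards [u1, u2, ae_ne hmd hmne, ae_restrict_mem isOpen_Dx.measurableSet]
    with z h1 h2 h3 hz
  have hGz : DifferentiableAt ℂ G (nq ν z) :=
    hGd.differentiableAt (hWo.mem_nhds (mem_image_of_mem _ hz))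
  rw [dzb_holo hGz, (hLd z hz).1, zero_mul, add_zero] at h1
  rw [dzb_holo hGz, (hLd z hz).2, zero_mul, add_zero, hb' z, ← nuQ _ hz] at h2
  apply mul_right_cancel₀ h3
  calc ν z * Q' (hM M h) z = ν z * (dz G (nq ν z) * a' z) := by rw [h1]
    _ = dz G (nq ν z) * (ν z * a' z) := by ring
    _ = _ := by rw [h2]; ring

end Pool.Agent.Helper64.QS
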